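import Pool.Agent.TH632.Complete
import Pool.Agent.TH632.Build

/-!
# Euclidean space is a universal base for branched covers

Every connected orientable noncompact PL `m`-manifold without boundary, `m ≥ 2`, admits a
branched cover onto `ℝ^m` of degree `ℵ₀`.

Sketch. Let `K` triangulate the manifold. The dual graph of the `m`-simplices (cells) of `K`
is infinite, connected and locally finite, so one can choose for every cell `σ` a neighbouring
cell `par σ` with a rank function that strictly increases along `par`. Flow every point of a
cell away from the vertex opposite to the common facet with `par σ`, backwards in time, until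
it stops in a facet which is not common to a cell and its parent. This identifies the manifold
with (the union of the free facets) times `[0, ∞)`, up to identifications on the boundary.
Ordering the vertices of a free facet cuts it into simplices, so the manifold is cut into
chambers `simplex × [0, ∞)`, each of which is PL homeomorphic to
`Q = {X ∈ ℝ^m | X ≥ 0, ∑ X ≥ 1}`. Chambers meeting along a wall have opposite signs, and
mapping the positive chambers to `Q` and the negative ones to the closure of the complement
of `Q` gives the branched cover. It branches over the codimension two skeleton of `Q`.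
-/

open Set Topology

namespace Pool.Agent.Results.MP_120ab6_gt.UniversalBase

open Pool.Agent.TH632

universe u

/-- `f : |K| → ℝ^m` is a branched cover of degree `d`: it is PL and non-degenerate (its fibres
are discrete, that is, it collapses no segment), it is onto, and there is a nonempty closed
subpolyhedron `B` of codimension two such that `f` is a covering map with fibres of cardinality
`d` over the complement of `B`. Moreover `f` is complete: every point has a compact
neighbourhood `C` such that all connected components of `f ⁻¹ C` are compact. -/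
structure IsBranchedCover {V : Type u} (m : ℕ) (K : PreAbstractSimplicialComplex V)
    (d : Cardinal.{u}) (f : realization K → (Fin m → ℝ)) : Prop where
  pl : IsPL K f
  nondegenerate : ∀ y, DiscreteTopology (f ⁻¹' {y})
  surjective : Function.Surjective f
  branched : ∃ B : Set (Fin m → ℝ), B.Nonempty ∧ IsSubpolyhedronOfDim (m - 2) B ∧
    IsCoveringMapOn f Bᶜ ∧ ∀ y, y ∉ B → Cardinal.mk (f ⁻¹' {y}) = d
  complete : ∀ y, ∃ C ∈ 𝓝 y, IsCompact C ∧ ∀ x ∈ f ⁻¹' C,
    IsCompact (connectedComponentIn (f ⁻¹' C) x)

theorem of_data {V : Type u} {m : ℕ} (hm : 2 ≤ m) {K : PreAbstractSimplicialComplex V}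
    (hK : IsPLManifold m K) (ho : IsOrientable m K) [ConnectedSpace (realization K)]
    [NoncompactSpace (realization K)] :
    ∃ f : realization K → (Fin m → ℝ), IsBranchedCover m K Cardinal.aleph0 f := by
  classical
  obtain ⟨D, hD⟩ := exists_flowData hm hK
  obtain ⟨o, hor⟩ := orientation_of hD ho
  have hsp := space_eq hK hD
  have hinfC : D.C.Infinite := by rw [hD]; exact infinite_cells hK
  have hcount : D.C.Countable := by rw [hD]; exact countable_cells hm hK
  have hne : D.space.Nonempty := by
    rw [hsp]
    obtain ⟨x⟩ := (inferInstance : Nonempty (realization K))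
    exact ⟨x, x.2⟩
  have key : ∀ (S : Set (V → ℝ)) (hS : D.space = S),
      ∃ f : S → (Fin m → ℝ), (∀ (x : V → ℝ) (h : x ∈ S), f ⟨x, h⟩ = D.F o ⟨x, hS ▸ h⟩) ∧
        Continuous f ∧
        (∀ y, DiscreteTopology (f ⁻¹' {y})) ∧ Function.Surjective f ∧
        IsCoveringMapOn f (Bset m)ᶜ ∧
        (∀ y, y ∉ Bset m → Cardinal.mk (f ⁻¹' {y}) = Cardinal.aleph0) ∧
        (∀ y, ∃ C ∈ 𝓝 y, IsCompact C ∧ ∀ x ∈ f ⁻¹' C,
          IsCompact (connectedComponentIn (f ⁻¹' C) x)) := by
    rintro S rfl
    refine ⟨D.F o, fun x h => rfl, FlowData.continuous_F o, FlowData.discrete_fiber o,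
      FlowData.surjective_F hor hne, FlowData.isCoveringMapOn hor, ?_,
      FlowData.exists_compact_nhds o⟩
    intro y hy
    obtain ⟨e⟩ := FlowData.fiber_equiv hor hy
    have h1 := FlowData.infinite_Pos hor hinfC
    have h2 : Countable (FlowData.Pos D o) := FlowData.countable_Pos hcount
    rw [← Cardinal.mk_congr e]
    exact Cardinal.mk_eq_aleph0 _
  obtain ⟨f, hf, hcont, hdisc, hsurj, hcov, hdeg, hcomp⟩ := key _ hsp
  refine ⟨f, ⟨hcont, ?_⟩, hdisc, hsurj, ⟨Bset m, ?_, isSubpolyhedron_Bset hm, hcov, hdeg⟩,
    hcomp⟩
  · intro s hs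
    obtain ⟨σ, h1, h2, h3⟩ := TH641.J10.exists_cell' hK hs
    have hσ : σ ∈ D.C := by rw [hD]; exact ⟨h1, h3⟩
    obtain ⟨n, P, hP, hcovP, hA⟩ := D.exists_PL o hσ
    refine ⟨n, P, hP, (simplex_mono h2).trans hcovP, ?_⟩
    intro i
    obtain ⟨A, hA⟩ := hA i
    refine ⟨A, ?_⟩
    rintro ⟨x, hx⟩ hxs hxP
    rw [hf x hx]
    exact hA ⟨x, hsp ▸ hx⟩ (simplex_mono h2 hxs) hxP
  · obtain ⟨n, P, hB, _, i, hi, _⟩ := isSubpolyhedron_Bset hm
    rw [hB]
    obtain ⟨y, hy⟩ := hi
    exact ⟨y, Set.mem_iUnion.mpr ⟨i, hy⟩⟩

/-- **`ℝ^m` is a universal base.** Every connected orientable noncompact PL `m`-manifold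
without boundary, `m ≥ 2`, admits a branched cover onto `ℝ^m` of countably infinite degree. -/
theorem result (m : ℕ) (hm : 2 ≤ m) (V : Type u) (K : PreAbstractSimplicialComplex V)
    (hK : IsPLManifold m K) (hor : IsOrientable m K) (hconn : ConnectedSpace (realization K))
    (hopen : NoncompactSpace (realization K)) :
    ∃ f : realization K → (Fin m → ℝ), IsBranchedCover m K Cardinal.aleph0 f :=
  of_data hm hK hor

end Pool.Agent.Results.MP_120ab6_gt.UniversalBase
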